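import Pool.Agent.TH882.R9

/-!
# Consecutive primes in a pattern from a given set, together with further primes `a_j n + c_j`

For every `m` there is `K` such that every set `A` of `K` positive integers has the following property: for almost all
vectors `(c_1, ..., c_r)` of integers `c_j ≤ κ x` without local obstruction there is a subset `H` of `A` with `m` elements
such that for at least `x / (log x) ^ D` integers `n ≤ x` the `n + h`, `h ∈ H`, are CONSECUTIVE primes and the numbers
`a_j n + c_j` are primes. For `m = 3` and `r = 0` these are triples of consecutive primes with the differences of three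
elements of `A`, at every scale `x`.

The theorem is the case of linear polynomials of a theorem of the starting files (`Pool.Agent.TH882.R9`).
-/

set_option autoImplicit false

open Finset Filter Topology

namespace Pool.Agent.Results.MP_dddec0_nt.ConsecutiveWithCompanions

/-- No local obstruction: for every prime `l` there is an integer `n` such that `l` divides no `n + u`, `u ∈ A`, and no
`a_j n + c_j`. -/
def LocallyPossible {r : ℕ} (A : Finset ℕ) (a c : Fin r → ℕ) : Prop :=
  ∀ l : ℕ, l.Prime → ∃ n : ℤ, (∀ u ∈ A, ¬ (l : ℤ) ∣ n + u) ∧ ∀ j, ¬ (l : ℤ) ∣ a j * n + c j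

/-- All `n + h`, `h ∈ H`, are prime, and no other integer between `n + min H` and `n + max H` is prime. -/
def Consecutive (H : Finset ℕ) (n : ℕ) : Prop := (∀ h ∈ H, (n + h).Prime) ∧
  ∀ w, (∃ h ∈ H, h ≤ w) → (∃ h ∈ H, w ≤ h) → (n + w).Prime → w ∈ H

/-- The number of the integers `1 ≤ n ≤ x` for which the `n + h`, `h ∈ H`, are consecutive primes and all
`a_j n + c_j` are prime. -/
noncomputable def count {r : ℕ} (H : Finset ℕ) (a c : Fin r → ℕ) (x : ℕ) : ℕ :=
  {n : ℕ | (1 ≤ n ∧ n ≤ x) ∧ Consecutive H n ∧ ∀ j, (a j * n + c j).Prime}.ncard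

/-- The vectors `c` of integers `1 ≤ c_j ≤ κ x` without local obstruction, but such that for no subset `H` of `A` with `m`
elements the count is at least `x / (log x) ^ D`. -/
def exceptions {r : ℕ} (A : Finset ℕ) (a : Fin r → ℕ) (m D κ x : ℕ) : Set (Fin r → ℕ) :=
  {c : Fin r → ℕ | (∀ j, 1 ≤ c j ∧ c j ≤ κ * x) ∧ LocallyPossible A a c ∧
    ¬ ∃ H ⊆ A, H.card = m ∧ (x : ℝ) / Real.log x ^ D ≤ (count H a c x : ℝ)}

/-- **Patterns of consecutive primes with companions.** For every `m` there is `K` such that for all positive integers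
`a_j` (`j < r`) and every set `A` of at least `K` positive integers there is `D` with the following property, for every
`κ`. For all vectors `c` of integers `1 ≤ c_j ≤ κ x` without local obstruction, with at most `o(x ^ r)` exceptions, there
is a subset `H` of `A` with `m` elements such that for at least `x / (log x) ^ D` integers `1 ≤ n ≤ x` the `m` numbers
`n + h`, `h ∈ H`, are consecutive primes and all `a_j n + c_j` are primes. (`r = 0`: for all large `x`, if `A` is
admissible.) -/
theorem result (m : ℕ) : ∃ K : ℕ, ∀ (r : ℕ) (a : Fin r → ℕ), (∀ j, 0 < a j) →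
    ∀ A : Finset ℕ, (∀ u ∈ A, 1 ≤ u) → K ≤ A.card → ∃ D : ℕ, ∀ κ : ℕ,
      Tendsto (fun x : ℕ => ((exceptions A a m D κ x).ncard : ℝ) / (x : ℝ) ^ r) atTop (𝓝 0) := by
  classical
  obtain ⟨K, hK, hfin⟩ := Pool.Agent.TH882.RQ.finQ m
  refine ⟨4 * (m + 1) * K, ?_⟩
  intro r a ha A hA1 hA
  obtain ⟨U, hUA, hUc⟩ := exists_subset_card_eq hA
  have haz : ∀ i, (a i : ℤ) ≠ 0 := fun i => by
    have := ha i
    omega
  have hgd : ∀ i, (Polynomial.C (a i : ℤ) * Polynomial.X).natDegree = 1 := fun i =>
    Polynomial.natDegree_C_mul_X _ (haz i)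
  obtain ⟨D, h⟩ := hfin (fun i => Polynomial.C (a i : ℤ) * Polynomial.X) (fun j => by rw [hgd j])
    (fun j => by
      rw [Polynomial.leadingCoeff_C_mul_X]
      have := ha j
      omega) U hUc (fun u hu => hA1 u (hUA hu))
  refine ⟨D, fun κ => ?_⟩
  refine squeeze_zero (fun x => by positivity) (fun x => ?_) (h κ)
  have e0 : ∏ j : Fin r, (x : ℝ) ^ (Polynomial.C (a j : ℤ) * Polynomial.X).natDegree =
      (x : ℝ) ^ r := by
    rw [prod_congr rfl fun j _ => by rw [hgd j, pow_one], prod_const, card_univ, Fintype.card_fin]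
  rw [e0]
  apply div_le_div_of_nonneg_right _ (by positivity)
  apply Nat.cast_le.2
  rw [← Set.ncard_coe_finset]
  apply Set.ncard_le_ncard _ (finite_toSet _)
  intro c hc
  obtain ⟨hc1, hc2, hc3⟩ := hc
  unfold Pool.Agent.TH882.RQ.ExQ
  rw [mem_coe, mem_filter, Fintype.mem_piFinset]
  refine ⟨?_, ?_, ?_⟩
  · intro j
    rw [mem_Icc, hgd j, pow_one]
    exact hc1 j
  · intro l hl
    obtain ⟨n, hn1, hn2⟩ := hc2 l hl
    refine ⟨n, fun u hu => hn1 u (hUA hu), fun j => ?_⟩
    have e1 : (c j : ℤ) + 1 * (Polynomial.C (a j : ℤ) * Polynomial.X).eval n = a j * n + c j := by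
      rw [Polynomial.eval_mul, Polynomial.eval_C, Polynomial.eval_X]
      ring
    simp only
    rw [e1]
    exact hn2 j
  · rintro ⟨H, hH1, hH2, hH3⟩
    apply hc3
    refine ⟨H, hH1.trans hUA, hH2, hH3.trans ?_⟩
    apply Nat.cast_le.2
    unfold count
    rw [← Set.ncard_coe_finset]
    apply Set.ncard_le_ncard
    · intro n hn
      unfold Pool.Agent.TH882.RQ.CQ at hn
      rw [mem_coe, mem_filter, mem_Ico] at hn
      obtain ⟨⟨h1, h2⟩, h3, h4⟩ := hn
      refine ⟨⟨h1, h2.le⟩, h3, fun j => ?_⟩
      have h5 := h4 j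
      have e1 : (c j : ℤ) + 1 * (Polynomial.C (a j : ℤ) * Polynomial.X).eval (n : ℤ) =
          ((a j * n + c j : ℕ) : ℤ) := by
        rw [Polynomial.eval_mul, Polynomial.eval_C, Polynomial.eval_X]
        push_cast
        ring
      simp only at h5
      rw [e1, Int.toNat_natCast] at h5
      exact h5
    · exact (Set.finite_Icc 1 x).subset fun n hn => hn.1

end Pool.Agent.Results.MP_dddec0_nt.ConsecutiveWithCompanions
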