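import Pool.Agent.X119.Dig

set_option autoImplicit false

/-!
# Prime triplets of both shapes with restricted digits, almost primes

There are `c > 0` and `r₀` such that for all `r ≥ r₀`, all bases `b` and all large `K` the following
holds for ALL choices of sets `A 0, ..., A (K - 1)` of digits with `∏ |A i| ≥ exp (- c K) b ^ K`. Let `q`
be `2` or `4`. The integers `n < b ^ K` whose `i`-th digit belongs to `A i` for all `i < K`, such that `n`,
`n + q` and `n + 6` have at most `r` prime factors each, all larger than `n ^ (1 / r)`, have the expected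
order `∏ |A i| / K ^ 3` (if the last digit can be chosen without a local obstruction at the base). At most
`C ∏ |A i| / K ^ 3` of the integers with these digits are the first member of a prime triplet (of either
shape).
-/

namespace Pool.Agent.Results.MP_dddec0_nt.PrescribedDigits

open Finset Filter
open Pool.Agent.Y816.PD (NA ND)

/-- `n`, `n + q`, `n + 6` have at most `r` prime factors each (with multiplicity), all of them larger than
`n ^ (1 / r)`. -/
def Almost (q r : ℕ) : Set ℕ :=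
  {n | ∀ h ∈ ({0, q, 6} : Finset ℕ), (∀ p : ℕ, p.Prime → p ∣ n + h → (n : ℝ) ^ (1 / (r : ℝ)) < (p : ℝ)) ∧
    (n + h).primeFactorsList.length ≤ r}

/-- The set `T` of the problem: the first members of the prime triplets. -/
def T : Set ℕ := {p | p.Prime ∧ (p + 6).Prime ∧ ((p + 2).Prime ∨ (p + 4).Prime)}

/-- no local obstruction -/
lemma adm (q : ℕ) (hq : q = 2 ∨ q = 4) (p : ℕ) (hp : p.Prime) :
    ∃ m : ℕ, ∀ h ∈ ({0, q, 6} : Finset ℕ), ¬ p ∣ m + h := by
  rcases hq with rfl | rfl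
  · rcases lt_or_ge p 20 with h20 | h20
    · refine ⟨41, fun h hh hd => ?_⟩
      simp only [mem_insert, mem_singleton] at hh
      have := (Nat.prime_dvd_prime_iff_eq hp
        (by rcases hh with rfl | rfl | rfl <;> norm_num)).1 hd
      omega
    · refine ⟨5, fun h hh hd => ?_⟩
      simp only [mem_insert, mem_singleton] at hh
      have := Nat.le_of_dvd (by omega) hd
      omega
  · rcases lt_or_ge p 20 with h20 | h20
    · refine ⟨37, fun h hh hd => ?_⟩
      simp only [mem_insert, mem_singleton] at hh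
      have := (Nat.prime_dvd_prime_iff_eq hp
        (by rcases hh with rfl | rfl | rfl <;> norm_num)).1 hd
      omega
    · refine ⟨7, fun h hh hd => ?_⟩
      simp only [mem_insert, mem_singleton] at hh
      have := Nat.le_of_dvd (by omega) hd
      omega

/-- the theorem for one shape -/
lemma one (q : ℕ) (hq : q = 2 ∨ q = 4) :
    ∃ c : ℝ, 0 < c ∧ ∃ r₀ : ℕ, 2 ≤ r₀ ∧ ∀ r : ℕ, r₀ ≤ r → ∀ b : ℕ, 2 ≤ b → ∃ κ C : ℝ, 0 < κ ∧ 0 < C ∧
      ∀ᶠ K : ℕ in atTop, ∀ A : ℕ → Finset ℕ, (∀ i < K, A i ⊆ range b) →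
        (b : ℝ) ^ K ≤ Real.exp (c * K) * NA K A →
        ((∃ d ∈ A 0, ∀ h ∈ ({0, q, 6} : Finset ℕ), (d + h).Coprime b) →
          κ * NA K A / (K : ℝ) ^ 3 ≤ ND b K A (Almost q r)) ∧
        (ND b K A {p | p.Prime ∧ (p + q).Prime ∧ (p + 6).Prime} : ℝ) ≤ C * NA K A / (K : ℝ) ^ 3 := by
  obtain ⟨c, hc, r₀, hr₀, h⟩ := Pool.Agent.Y816.PD.digits_tuple {0, q, 6} (adm q hq) 3 (by
    rcases hq with rfl | rfl <;> rfl)
  refine ⟨c, hc, r₀, hr₀, fun r hr b hb => ?_⟩
  obtain ⟨κ, C, hκ, hC, h1⟩ := h r hr b hb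
  refine ⟨κ, C, hκ, hC, ?_⟩
  filter_upwards [h1] with K hK A hA hprod
  obtain ⟨h2, h3⟩ := hK A hA hprod
  refine ⟨h2, (Pool.Agent.X119.Dig.nd_mono b K A ?_).trans h3⟩
  rintro n ⟨hn, hn1, hn2⟩ h hh p hp hd
  simp only [mem_insert, mem_singleton] at hh
  refine Pool.Agent.X119.Dig.prime_rough (hr₀.trans hr) hn.two_le (N := n + h) ?_ (Nat.le_add_right _ _) hp hd
  rcases hh with rfl | rfl | rfl
  · exact hn
  · exact hn1
  · exact hn2

/-- the integers with the property `S` or the property `T` -/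
lemma nd_union (b K : ℕ) (A : ℕ → Finset ℕ) {S T U : Set ℕ} (h : ∀ n, n ∈ S → n ∈ T ∨ n ∈ U) :
    (ND b K A S : ℝ) ≤ ND b K A T + ND b K A U := by
  classical
  unfold ND
  have h1 : (range (b ^ K)).filter (fun n => (∀ i < K, n / b ^ i % b ∈ A i) ∧ n ∈ S) ⊆
      (range (b ^ K)).filter (fun n => (∀ i < K, n / b ^ i % b ∈ A i) ∧ n ∈ T) ∪
      (range (b ^ K)).filter (fun n => (∀ i < K, n / b ^ i % b ∈ A i) ∧ n ∈ U) := by
    intro n hn
    rw [mem_filter] at hn
    rw [mem_union, mem_filter, mem_filter]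
    rcases h n hn.2.2 with h2 | h2
    · exact Or.inl ⟨hn.1, hn.2.1, h2⟩
    · exact Or.inr ⟨hn.1, hn.2.1, h2⟩
  have h2 := (card_le_card h1).trans (card_union_le _ _)
  have h3 : (((range (b ^ K)).filter (fun n => (∀ i < K, n / b ^ i % b ∈ A i) ∧ n ∈ S)).card : ℝ) ≤
      ((((range (b ^ K)).filter (fun n => (∀ i < K, n / b ^ i % b ∈ A i) ∧ n ∈ T)).card +
      ((range (b ^ K)).filter (fun n => (∀ i < K, n / b ^ i % b ∈ A i) ∧ n ∈ U)).card : ℕ) : ℝ) := by
    exact_mod_cast h2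
  rw [Nat.cast_add] at h3
  convert h3

/-- **Restricted digits.** -/
theorem result :
    ∃ c : ℝ, 0 < c ∧ ∃ r₀ : ℕ, 2 ≤ r₀ ∧ ∀ r : ℕ, r₀ ≤ r → ∀ b : ℕ, 2 ≤ b → ∃ κ C : ℝ, 0 < κ ∧ 0 < C ∧
      ∀ᶠ K : ℕ in atTop, ∀ A : ℕ → Finset ℕ, (∀ i < K, A i ⊆ range b) →
        (b : ℝ) ^ K ≤ Real.exp (c * K) * NA K A →
        (∀ q : ℕ, (q = 2 ∨ q = 4) → (∃ d ∈ A 0, ∀ h ∈ ({0, q, 6} : Finset ℕ), (d + h).Coprime b) →
          κ * NA K A / (K : ℝ) ^ 3 ≤ ND b K A (Almost q r)) ∧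
        (ND b K A T : ℝ) ≤ C * NA K A / (K : ℝ) ^ 3 := by
  obtain ⟨c, hc, r₀, hr₀, h⟩ := one 2 (Or.inl rfl)
  obtain ⟨c', hc', r₀', hr₀', h'⟩ := one 4 (Or.inr rfl)
  refine ⟨min c c', lt_min hc hc', max r₀ r₀', hr₀.trans (le_max_left _ _), fun r hr b hb => ?_⟩
  obtain ⟨κ, C, hκ, hC, h1⟩ := h r ((le_max_left _ _).trans hr) b hb
  obtain ⟨κ', C', hκ', hC', h1'⟩ := h' r ((le_max_right _ _).trans hr) b hb
  refine ⟨min κ κ', C + C', lt_min hκ hκ', by positivity, ?_⟩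
  filter_upwards [h1, h1'] with K hK hK' A hA hprod
  have hN : 0 ≤ NA K A := prod_nonneg fun i _ => Nat.cast_nonneg _
  have hp1 : (b : ℝ) ^ K ≤ Real.exp (c * K) * NA K A := by
    refine hprod.trans (mul_le_mul_of_nonneg_right ?_ hN)
    apply Real.exp_le_exp.2
    exact mul_le_mul_of_nonneg_right (min_le_left _ _) (Nat.cast_nonneg _)
  have hp2 : (b : ℝ) ^ K ≤ Real.exp (c' * K) * NA K A := by
    refine hprod.trans (mul_le_mul_of_nonneg_right ?_ hN)
    apply Real.exp_le_exp.2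
    exact mul_le_mul_of_nonneg_right (min_le_right _ _) (Nat.cast_nonneg _)
  obtain ⟨h2, h3⟩ := hK A hA hp1
  obtain ⟨h2', h3'⟩ := hK' A hA hp2
  constructor
  · rintro q (rfl | rfl) hd
    · refine le_trans ?_ (h2 hd)
      gcongr
      exact min_le_left _ _
    · refine le_trans ?_ (h2' hd)
      gcongr
      exact min_le_right _ _
  · refine (nd_union b K A (T := {p | p.Prime ∧ (p + 2).Prime ∧ (p + 6).Prime})
      (U := {p | p.Prime ∧ (p + 4).Prime ∧ (p + 6).Prime}) ?_).trans ?_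
    · rintro n ⟨hn1, hn2, hn3 | hn3⟩
      · exact Or.inl ⟨hn1, hn3, hn2⟩
      · exact Or.inr ⟨hn1, hn3, hn2⟩
    · calc _ ≤ C * NA K A / (K : ℝ) ^ 3 + C' * NA K A / (K : ℝ) ^ 3 := add_le_add h3 h3'
        _ = (C + C') * NA K A / (K : ℝ) ^ 3 := by ring

end Pool.Agent.Results.MP_dddec0_nt.PrescribedDigits
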